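import Mathlib.Geometry.Manifold.Instances.Sphere
import Mathlib.Topology.MetricSpace.HausdorffDimension

/-!
# The Hausdorff dimension of a set of unit vectors
-/

set_option autoImplicit false

namespace Pool.Agent.H73.RN

open Module Metric
open scoped RealInnerProductSpace ENNReal

/-- A set of unit vectors of `ℝᵈ⁺¹` has Hausdorff dimension at most `d`. -/
theorem dimH_unit_le {d : ℕ} {Ω : Set (EuclideanSpace ℝ (Fin (d + 1)))}
    (hΩ : ∀ e ∈ Ω, ‖e‖ = 1) : dimH Ω ≤ d := by
  rcases Ω.eq_empty_or_nonempty with rfl | ⟨v, hv⟩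
  · simp
  have hv1 : ‖v‖ = 1 := hΩ v hv
  have hv0 : v ≠ 0 := by
    intro h
    rw [h, norm_zero] at hv1
    exact zero_ne_one hv1
  have hfr : finrank ℝ (EuclideanSpace ℝ (Fin (d + 1))) = d + 1 := finrank_euclideanSpace_fin
  haveI : Fact (finrank ℝ (EuclideanSpace ℝ (Fin (d + 1))) = d + 1) := ⟨hfr⟩
  have hfin : finrank ℝ (ℝ ∙ v)ᗮ = d := Submodule.finrank_orthogonal_span_singleton hv0
  have h1 : ContDiff ℝ 1 (fun w : (ℝ ∙ v)ᗮ => stereoInvFunAux v (w : EuclideanSpace ℝ (Fin (d + 1)))) :=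
    contDiff_stereoInvFunAux.comp (ℝ ∙ v)ᗮ.subtypeL.contDiff
  have h2 := h1.dimH_range_le
  rw [hfin] at h2
  have h3 : Ω ⊆ Set.range (fun w : (ℝ ∙ v)ᗮ =>
      stereoInvFunAux v (w : EuclideanSpace ℝ (Fin (d + 1)))) ∪ {v} := by
    intro e he
    by_cases hev : e = v
    · right
      exact hev
    · left
      have he1 : e ∈ sphere (0 : EuclideanSpace ℝ (Fin (d + 1))) 1 := by
        rw [mem_sphere_zero_iff_norm]
        exact hΩ e he
      have h4 := stereo_left_inv hv1 (x := ⟨e, he1⟩) hev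
      refine ⟨stereoToFun v e, ?_⟩
      have h5 := congrArg Subtype.val h4
      exact h5
  refine (dimH_mono h3).trans ?_
  rw [dimH_union, dimH_singleton]
  exact max_le h2 (by simp)

end Pool.Agent.H73.RN
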